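import Pool.Agent.Helper314_MC.Poly

/-!
# Misère checkers is hard for polynomial space
-/

namespace Pool.Agent.Results.MP_5d0714_lc.PspaceHard

open Pool.Agent.NPC Pool.Agent.H623R2.PS Pool.Agent.Helper314_MC

/-- Deciding whether the player to move has a winning strategy in misère checkers on `N × N` boards
is `PSPACE`-hard, both when a man which reaches its far row during a capture stops there (as in
English draughts, `stop = true`) and when it goes on capturing as a king (`stop = false`). -/
theorem result : ∀ stop : Bool, PSPACEHard (lang (MisereCheckers stop)) :=
  hard

end Pool.Agent.Results.MP_5d0714_lc.PspaceHard
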